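import Pool.Agent.Helper54.Chain.Block

/-!
# From chain data of a real vector to the bound
-/

open Finset

namespace Pool.Agent.Helper54.Chain

open Pool.Agent.Helper23.Hyper

/-- A finite set of natural numbers closed under going down is an initial segment. -/
theorem eq_range_of_down (S : Finset ℕ) (h : ∀ m ∈ S, ∀ j < m, j ∈ S) : S = range S.card := by
  apply Finset.eq_of_subset_of_card_le
  · intro m hm
    rw [Finset.mem_range]
    have h1 : range (m + 1) ⊆ S := by
      intro j hj
      rw [Finset.mem_range] at hj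
      rcases Nat.lt_or_ge j m with hlt | hge
      · exact h m hm j hlt
      · rw [show j = m by omega]; exact hm
    have h2 := Finset.card_le_card h1
    rw [Finset.card_range] at h2
    omega
  · rw [Finset.card_range]

/-- Numbering of a block by the positions. -/
theorem exists_equiv {K C : Type*} [Fintype K] [DecidableEq C] (c : K → C) (p : K → ℕ)
    (i : C) (hne : ∃ k, c k = i) (hinj : ∀ k k', c k = i → c k' = i → p k = p k' → k = k')
    (hdown : ∀ k, c k = i → ∀ m < p k, ∃ j, c j = i ∧ p j = m) :
    ∃ (l : ℕ) (e : Fin (l + 1) ≃ {k // c k = i}), ∀ j, p (e j).1 = j := by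
  classical
  set S : Finset ℕ := (univ.filter (fun k => c k = i)).image p with hS
  have hSd : ∀ m ∈ S, ∀ j < m, j ∈ S := by
    intro m hm j hj
    rw [hS, Finset.mem_image] at hm ⊢
    obtain ⟨k, hk, rfl⟩ := hm
    obtain ⟨k', hk', hp⟩ := hdown k (Finset.mem_filter.mp hk).2 j hj
    exact ⟨k', Finset.mem_filter.mpr ⟨Finset.mem_univ _, hk'⟩, hp⟩
  have hSr := eq_range_of_down S hSd
  obtain ⟨k0, hk0⟩ := hne
  have hpos : 0 < S.card := by
    rw [Finset.card_pos]
    exact ⟨p k0, by rw [hS]; exact Finset.mem_image_of_mem _ (by simp [hk0])⟩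
  obtain ⟨l, hl⟩ : ∃ l, S.card = l + 1 := ⟨S.card - 1, by omega⟩
  have hmem : ∀ k : {k // c k = i}, p k.1 < l + 1 := by
    intro k
    have h1 : p k.1 ∈ S := by
      rw [hS]
      exact Finset.mem_image_of_mem _ (by simp [k.2])
    rw [hSr, Finset.mem_range, hl] at h1
    exact h1
  have hbij : Function.Bijective (fun k : {k // c k = i} => (⟨p k.1, hmem k⟩ : Fin (l + 1))) := by
    constructor
    · intro k k' h
      have h1 : p k.1 = p k'.1 := congrArg Fin.val h
      exact Subtype.ext (hinj _ _ k.2 k'.2 h1)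
    · intro j
      have h1 : (j : ℕ) ∈ S := by
        rw [hSr, Finset.mem_range, hl]
        exact j.2
      rw [hS, Finset.mem_image] at h1
      obtain ⟨k, hk, hp⟩ := h1
      exact ⟨⟨k, (Finset.mem_filter.mp hk).2⟩, Fin.ext hp⟩
  refine ⟨l, (Equiv.ofBijective _ hbij).symm, ?_⟩
  intro j
  have h1 := (Equiv.ofBijective _ hbij).apply_symm_apply j
  exact congrArg Fin.val h1

/-- The number of progression bottoms: indices `i` such that no entry is `± a i / 2`. -/
noncomputable def bottoms {n : ℕ} (a : Fin n → ℝ) : ℕ := by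
  classical
  exact (univ.filter (fun i => ∀ j, a i ≠ 2 * a j ∧ a i ≠ -2 * a j)).card

/-- The assembly from chain data. -/
theorem assemble {n : ℕ} (a : Fin n → ℝ) (T : ℝ)
    (hinj : ∀ j k, |a j| = |a k| → j = k)
    (adm : ∀ z : Fin n → ℤ, (∀ k, z k ∈ Icc (-1 : ℤ) 1) → ∑ k, a k * (z k : ℝ) = 0 → z = 0)
    (c : Fin n → Fin n) (p : Fin n → ℕ) (hc : ∀ k j, 2 * |a j| ≠ |a (c k)|)
    (hp : ∀ k, |a k| = 2 ^ (p k) * |a (c k)|)
    (hdown : ∀ k m, m < p k → ∃ j, c j = c k ∧ p j = m)
    (β C : ℝ) (hβ : 0 ≤ β) (hC : 0 ≤ C)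
    (hQ : ∀ l, ((R (l + 1) + Q (l + 1) + 2 * P (l + 1) : ℕ) : ℝ) ≤ C * β ^ (l + 1)) :
    (((Fintype.piFinset (fun _ : Fin n => Icc (-2 : ℤ) 2)).filter
      (fun x => ∑ k, a k * (x k : ℝ) = T)).card : ℝ) ≤ C ^ bottoms a * β ^ n := by
  classical
  have h0 : ∀ k, a k ≠ 0 := by
    intro k hk
    have := adm (fun j => if j = k then 1 else 0) (by intro j; by_cases h : j = k <;> simp [h])
      (by simp [hk])
    have h1 := congrFun this k
    simp at h1
  -- the type of bottoms
  set B : Type := {i : Fin n // ∀ j, 2 * |a j| ≠ |a i|} with hB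
  set c' : Fin n → B := fun k => ⟨c k, hc k⟩ with hc'
  -- positions of bottoms vanish
  have hbot : ∀ i : B, c i.1 = i.1 ∧ p i.1 = 0 := by
    intro i
    have hp0 : p i.1 = 0 := by
      by_contra hne
      obtain ⟨m, hm⟩ : ∃ m, p i.1 = m + 1 := ⟨p i.1 - 1, by omega⟩
      obtain ⟨j, hj1, hj2⟩ := hdown i.1 m (by omega)
      have h2 := hp j
      rw [hj1, hj2] at h2
      have h3 := hp i.1
      rw [hm, pow_succ] at h3
      exact i.2 j (by rw [h2, h3]; ring)
    refine ⟨?_, hp0⟩
    have h3 := hp i.1
    rw [hp0, pow_zero, one_mul] at h3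
    exact (hinj _ _ h3).symm
  have hblock : ∀ i : B, ∃ (l : ℕ) (e : Fin (l + 1) ≃ {k // c' k = i}), ∀ j, p (e j).1 = j := by
    intro i
    apply exists_equiv c' p i
    · exact ⟨i.1, Subtype.ext (hbot i).1⟩
    · intro k k' hk hk' hpp
      apply hinj
      rw [hp k, hp k', hpp]
      have h1 : c k = c k' := by
        have := hk.trans hk'.symm
        exact congrArg Subtype.val this
      rw [h1]
    · intro k hk m hm
      obtain ⟨j, hj1, hj2⟩ := hdown k m hm
      exact ⟨j, by rw [← hk]; exact Subtype.ext hj1, hj2⟩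
  choose l e he using hblock
  -- coefficients
  set D : Fin n → ℤ := fun k => if 0 < a k then 2 ^ (p k) else - 2 ^ (p k) with hD
  have haD : ∀ k, a k = (D k : ℝ) * |a (c' k).1| := by
    intro k
    have h1 := hp k
    rw [hD]
    simp only
    by_cases h : 0 < a k
    · rw [if_pos h]
      rw [abs_of_pos h] at h1
      push_cast
      exact h1
    · rw [if_neg h]
      rw [abs_of_nonpos (not_lt.mp h)] at h1
      push_cast
      have : (c' k).1 = c k := rfl
      rw [this]
      linarith
  have key := chains c' D (fun i => |a i.1|) T ?_ l e ?_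
  · have hset : (Fintype.piFinset (fun _ : Fin n => Icc (-2 : ℤ) 2)).filter
        (fun x => ∑ k, a k * (x k : ℝ) = T) =
        (Fintype.piFinset (fun _ : Fin n => Icc (-2 : ℤ) 2)).filter
        (fun x => ∑ k, (D k : ℝ) * |a (c' k).1| * (x k : ℝ) = T) := by
      apply Finset.filter_congr
      intro x _
      have h1 : ∑ k, a k * (x k : ℝ) = ∑ k, (D k : ℝ) * |a (c' k).1| * (x k : ℝ) := by
        apply Finset.sum_congr rfl
        intro k _
        rw [← haD k]
      rw [h1]
    rw [hset]
    have h1 : (((Fintype.piFinset (fun _ : Fin n => Icc (-2 : ℤ) 2)).filter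
        (fun x => ∑ k, (D k : ℝ) * |a (c' k).1| * (x k : ℝ) = T)).card : ℝ) ≤
        ((∏ i : B, (R (l i + 1) + Q (l i + 1) + 2 * P (l i + 1)) : ℕ) : ℝ) := by
      exact_mod_cast key
    refine h1.trans ?_
    rw [Nat.cast_prod]
    refine (Finset.prod_le_prod (fun i _ => Nat.cast_nonneg _) (fun i _ => hQ (l i))).trans ?_
    rw [Finset.prod_mul_distrib, Finset.prod_const, Finset.prod_pow_eq_pow_sum]
    have hcardB : (univ : Finset B).card = bottoms a := by
      unfold bottoms
      rw [Finset.card_univ, Fintype.card_subtype]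
      congr 1
      ext i
      simp only [Finset.mem_filter, Finset.mem_univ, true_and]
      constructor
      · intro h j
        constructor
        · intro h2
          exact h j (by rw [h2, abs_mul]; norm_num)
        · intro h2
          exact h j (by rw [h2, abs_mul]; norm_num)
      · intro h j h2
        have h3 : |2 * a j| = |a i| := by rw [abs_mul]; norm_num; exact h2
        rcases abs_eq_abs.mp h3 with h4 | h4
        · exact (h j).1 h4.symm
        · exact (h j).2 (by linarith)
    have hsum : ∑ i : B, (l i + 1) = n := by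
      have h2 : ∀ i : B, Fintype.card {k // c' k = i} = l i + 1 := by
        intro i
        rw [← Fintype.card_congr (e i), Fintype.card_fin]
      have h3 : Fintype.card (Fin n) = ∑ i : B, Fintype.card {k // c' k = i} := by
        rw [← Fintype.card_sigma]
        exact Fintype.card_congr (Equiv.sigmaFiberEquiv c').symm
      rw [Fintype.card_fin] at h3
      exact (Finset.sum_congr rfl (fun i _ => (h2 i).symm)).trans h3.symm
    rw [hcardB, hsum]
  · intro z hz h
    apply adm z hz
    rw [← h]
    apply Finset.sum_congr rfl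
    intro k _
    rw [← haD k]
  · intro i j
    rw [hD]
    simp only
    rw [he i j]
    by_cases h : 0 < a (e i j).1
    · rw [if_pos h]; exact Or.inl rfl
    · rw [if_neg h]; exact Or.inr rfl

end Pool.Agent.Helper54.Chain
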