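import Mathlib

/-!
# The maximal doubling progressions of a real vector
-/

open Finset

namespace Pool.Agent.Helper54.Chain

/-- An admissible vector has nonzero entries with distinct absolute values. -/
theorem abs_inj {n : ℕ} (a : Fin n → ℝ)
    (adm : ∀ z : Fin n → ℤ, (∀ k, z k ∈ Icc (-1 : ℤ) 1) → ∑ k, a k * (z k : ℝ) = 0 → z = 0) :
    (∀ k, a k ≠ 0) ∧ ∀ j k, |a j| = |a k| → j = k := by
  classical
  refine ⟨?_, ?_⟩
  · intro k hk
    have h := adm (fun j => if j = k then 1 else 0) (by intro j; by_cases h : j = k <;> simp [h])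
      (by simp [hk])
    have h1 := congrFun h k
    simp at h1
  · intro j k hjk
    by_contra hne
    obtain ⟨s, hs, hs2⟩ : ∃ s : ℤ, (s = 1 ∨ s = -1) ∧ a j + (s : ℝ) * a k = 0 := by
      rcases abs_eq_abs.mp hjk with h | h
      · exact ⟨-1, Or.inr rfl, by rw [h]; push_cast; ring⟩
      · exact ⟨1, Or.inl rfl, by rw [h]; push_cast; ring⟩
    have h := adm (fun i => if i = j then 1 else if i = k then s else 0) ?_ ?_
    · have h1 := congrFun h j
      simp at h1
    · intro i
      by_cases h1 : i = j
      · simp [h1]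
      · by_cases h2 : i = k
        · rw [if_neg h1, if_pos h2]
          rcases hs with h3 | h3 <;> rw [h3] <;> simp
        · rw [if_neg h1, if_neg h2]
          simp
    · rw [← hs2, ← Finset.add_sum_erase _ _ (Finset.mem_univ j),
        ← Finset.add_sum_erase (univ.erase j) _ (Finset.mem_erase.mpr ⟨Ne.symm hne, Finset.mem_univ k⟩)]
      rw [Finset.sum_eq_zero]
      · rw [if_pos rfl, if_neg (Ne.symm hne), if_pos rfl]
        push_cast
        ring
      · intro i hi
        rw [Finset.mem_erase, Finset.mem_erase] at hi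
        rw [if_neg hi.2.1, if_neg hi.1]
        simp

/-- Every entry is `± 2^(p k)` times the bottom of its progression. -/
theorem chain_data {n : ℕ} (a : Fin n → ℝ) (h0 : ∀ k, a k ≠ 0)
    (hinj : ∀ j k, |a j| = |a k| → j = k) :
    ∃ (c : Fin n → Fin n) (p : Fin n → ℕ), (∀ k j, 2 * |a j| ≠ |a (c k)|) ∧
      (∀ k, |a k| = 2 ^ (p k) * |a (c k)|) ∧
      (∀ k m, m < p k → ∃ j, c j = c k ∧ p j = m) := by
  classical
  -- some halving of an entry is not an entry
  have hex : ∀ k, ∃ m : ℕ, ∀ j, |a j| ≠ |a k| / 2 ^ m := by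
    intro k
    by_contra hcon
    push_neg at hcon
    choose f hf using hcon
    have hf_inj : Function.Injective f := by
      intro m m' h
      have h1 := hf m
      rw [h, hf m'] at h1
      have hk : |a k| ≠ 0 := abs_ne_zero.mpr (h0 k)
      have h2 : (2 : ℝ) ^ m = 2 ^ m' := by
        have h3 : (2 : ℝ) ^ m ≠ 0 := by positivity
        have h4 : (2 : ℝ) ^ m' ≠ 0 := by positivity
        field_simp at h1
        exact h1
      exact pow_right_injective₀ (by norm_num : (0 : ℝ) < 2) (by norm_num) h2
    exact not_injective_infinite_finite f hf_inj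
  set M : Fin n → ℕ := fun k => Nat.find (hex k) with hM
  have hMspec : ∀ k j, |a j| ≠ |a k| / 2 ^ M k := fun k => Nat.find_spec (hex k)
  have hMmin : ∀ k m, m < M k → ∃ j, |a j| = |a k| / 2 ^ m := by
    intro k m hm
    have := Nat.find_min (hex k) hm
    push_neg at this
    exact this
  have hMpos : ∀ k, 0 < M k := by
    intro k
    rcases Nat.eq_zero_or_pos (M k) with h | h
    · have h1 := hMspec k k
      rw [h, pow_zero, div_one] at h1
      exact absurd rfl h1
    · exact h
  have hMeq : ∀ k m, (∀ j, |a j| ≠ |a k| / 2 ^ m) → (∀ m' < m, ∃ j, |a j| = |a k| / 2 ^ m') →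
      M k = m := by
    intro k m h1 h2
    apply le_antisymm
    · exact Nat.find_min' (hex k) h1
    · by_contra hlt
      push_neg at hlt
      obtain ⟨j, hj⟩ := h2 _ hlt
      exact hMspec k j hj
  have hc : ∀ k, ∃ j, |a j| = |a k| / 2 ^ (M k - 1) := fun k =>
    hMmin k _ (by have := hMpos k; omega)
  choose c hc using hc
  refine ⟨c, fun k => M k - 1, ?_, ?_, ?_⟩
  · intro k j h
    apply hMspec k j
    have h1 := hc k
    rw [← h] at h1
    have h2 : M k = (M k - 1) + 1 := by have := hMpos k; omega
    rw [h2, pow_succ]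
    have h3 : (2 : ℝ) ^ (M k - 1) ≠ 0 := by positivity
    field_simp at h1 ⊢
    linarith
  · intro k
    rw [hc k]
    have h3 : (2 : ℝ) ^ (M k - 1) ≠ 0 := by positivity
    field_simp
  · intro k m hm
    have hm' : m < M k - 1 := hm
    obtain ⟨j, hj⟩ := hMmin k (M k - 1 - m) (by omega)
    -- the entry `2^m` times the bottom
    have h3 : ∀ t : ℕ, (2 : ℝ) ^ t ≠ 0 := fun t => by positivity
    have hMj : M j = m + 1 := by
      apply hMeq
      · intro i h
        apply hMspec k i
        rw [h, hj, div_div, ← pow_add]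
        congr 2
        omega
      · intro m' hm''
        obtain ⟨i, hi⟩ := hMmin k (M k - 1 - m + m') (by omega)
        exact ⟨i, by rw [hi, hj, div_div, ← pow_add]⟩
    refine ⟨j, ?_, ?_⟩
    · apply hinj
      rw [hc j, hc k, hj, hMj, div_div, ← pow_add]
      congr 2
      omega
    · show M j - 1 = m
      omega

end Pool.Agent.Helper54.Chain
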