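import Pool.Agent.Helper54.Chain.Block

/-!
# Tile inequalities at several scales
-/

open Finset

namespace Pool.Agent.Helper54.Chain

open Pool.Agent.Helper23.Hyper

variable {K C : Type*} [Fintype K] [DecidableEq K] [Fintype C] [DecidableEq C]

/-- The mass of the tile `y - g [0, 2^l)` for the measure with support `s` and weights `p`. -/
noncomputable def tile (g : ℤ) (l : ℕ) (s : Finset ℤ) (p : ℤ → ℝ) (y : ℤ) : ℝ := by
  classical
  exact ∑ w ∈ s, if (∃ u : ℤ, 0 ≤ u ∧ u < 2 ^ l ∧ y = w + g * u) then p w else 0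

theorem tile_nonneg (g : ℤ) (l : ℕ) (s : Finset ℤ) (p : ℤ → ℝ) (hp : ∀ w ∈ s, 0 ≤ p w) (y : ℤ) :
    0 ≤ tile g l s p y := by
  classical
  unfold tile
  apply Finset.sum_nonneg
  intro w hw
  by_cases h : ∃ u : ℤ, 0 ≤ u ∧ u < 2 ^ l ∧ y = w + g * u
  · rw [if_pos h]; exact hp w hw
  · rw [if_neg h]

/-- The tile inequality. -/
theorem sum_tile_le (Y : Finset (C → ℤ)) (g : ℤ) (l : C → ℕ) (s : C → Finset ℤ) (p : C → ℤ → ℝ)
    (hp : ∀ i, ∀ w ∈ s i, 0 ≤ p i w) (hp1 : ∀ i, ∑ w ∈ s i, p i w ≤ 1)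
    (hdis : ∀ y ∈ Y, ∀ y' ∈ Y, (∀ i, ∃ d : ℤ, |d| < 2 ^ (l i) ∧ y i - y' i = g * d) → y = y') :
    ∑ y ∈ Y, ∏ i, tile g (l i) (s i) (p i) (y i) ≤ 1 := by
  classical
  have h1 : ∀ y ∈ Y, ∏ i, tile g (l i) (s i) (p i) (y i) =
      ∑ w ∈ Fintype.piFinset s, ∏ i,
        (if (∃ u : ℤ, 0 ≤ u ∧ u < 2 ^ (l i) ∧ y i = w i + g * u) then p i (w i) else 0) := by
    intro y _
    unfold tile
    rw [Finset.prod_univ_sum]
  rw [Finset.sum_congr rfl h1, Finset.sum_comm]
  have h2 : ∀ w ∈ Fintype.piFinset s, ∑ y ∈ Y, ∏ i,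
      (if (∃ u : ℤ, 0 ≤ u ∧ u < 2 ^ (l i) ∧ y i = w i + g * u) then p i (w i) else 0) ≤
      ∏ i, p i (w i) := by
    intro w hw
    rw [Fintype.mem_piFinset] at hw
    have hnn : 0 ≤ ∏ i, p i (w i) := Finset.prod_nonneg (fun i _ => hp i _ (hw i))
    by_cases hex : ∃ y0 ∈ Y, ∀ i, ∃ u : ℤ, 0 ≤ u ∧ u < 2 ^ (l i) ∧ y0 i = w i + g * u
    · obtain ⟨y0, hy0, hu0⟩ := hex
      rw [Finset.sum_eq_single_of_mem y0 hy0]
      · apply le_of_eq
        exact Finset.prod_congr rfl (fun i _ => if_pos (hu0 i))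
      · intro y hy hne
        by_contra hne0
        apply hne
        apply hdis y hy y0 hy0
        intro i
        have h3 : ∃ u : ℤ, 0 ≤ u ∧ u < 2 ^ (l i) ∧ y i = w i + g * u := by
          by_contra h4
          apply hne0
          exact Finset.prod_eq_zero (Finset.mem_univ i) (if_neg h4)
        obtain ⟨u, hu1, hu2, hu3⟩ := h3
        obtain ⟨v, hv1, hv2, hv3⟩ := hu0 i
        refine ⟨u - v, ?_, ?_⟩
        · rw [abs_lt]
          constructor <;> linarith
        · rw [hu3, hv3]; ring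
    · rw [Finset.sum_eq_zero]
      · exact hnn
      · intro y hy
        push Not at hex
        obtain ⟨i, hi⟩ := hex y hy
        apply Finset.prod_eq_zero (Finset.mem_univ i)
        rw [if_neg]
        rintro ⟨u, hu1, hu2, hu3⟩
        exact hi u hu1 hu2 hu3
  refine (Finset.sum_le_sum h2).trans ?_
  rw [← Finset.prod_univ_sum]
  calc ∏ i, ∑ w ∈ s i, p i w ≤ ∏ _i : C, (1 : ℝ) :=
        Finset.prod_le_prod (fun i _ => Finset.sum_nonneg (hp i)) (fun i _ => hp1 i)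
    _ = 1 := by simp

/-- Counting with tile certificates at several scales, for doubling chains. -/
theorem chains_tile (c : K → C) (D : K → ℤ) (b : C → ℝ) (T : ℝ)
    (adm : ∀ z : K → ℤ, (∀ k, z k ∈ Icc (-1 : ℤ) 1) →
      ∑ k, (D k : ℝ) * b (c k) * (z k : ℝ) = 0 → z = 0)
    (l : C → ℕ) (e : ∀ i, Fin (l i + 1) ≃ {k // c k = i})
    (hD : ∀ i j, D (e i j).1 = 2 ^ (j : ℕ) ∨ D (e i j).1 = - 2 ^ (j : ℕ))
    {κ : Type*} [Fintype κ] (g : κ → ℤ) (hg : ∀ k, g k ≠ 0) (t : κ → ℝ) (ht : ∀ k, 0 ≤ t k)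
    (ht1 : ∑ k, t k = 1) (s : κ → C → Finset ℤ) (p : κ → C → ℤ → ℝ)
    (hp : ∀ k i, ∀ w ∈ s k i, 0 ≤ p k i w) (hp1 : ∀ k i, ∑ w ∈ s k i, p k i w ≤ 1)
    (lam : C → ℝ) (hlam : ∀ i, 0 ≤ lam i)
    (hN : ∀ i y, (cnt (pows (l i + 1)) y : ℝ) ≤
      lam i * ∏ k, (tile (g k) (l i + 1) (s k i) (p k i) y) ^ (t k)) :
    (((Fintype.piFinset (fun _ : K => Icc (-2 : ℤ) 2)).filter
      (fun x => ∑ k, (D k : ℝ) * b (c k) * (x k : ℝ) = T)).card : ℝ) ≤ ∏ i, lam i := by
  classical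
  set F := (Fintype.piFinset (fun _ : K => Icc (-2 : ℤ) 2)).filter
      (fun x => ∑ k, (D k : ℝ) * b (c k) * (x k : ℝ) = T) with hFdef
  have hF : ∀ x ∈ F, (∀ k, x k ∈ Icc (-2 : ℤ) 2) ∧
      ∑ k, (D k : ℝ) * b (c k) * (x k : ℝ) = T := by
    intro x hx
    rw [hFdef, Finset.mem_filter, Fintype.mem_piFinset] at hx
    exact hx
  set Y : Finset (C → ℤ) := F.image (bval c D) with hY
  -- two block value vectors which differ by small multiples of `g` are equal
  have key : ∀ k : κ, ∀ y ∈ Y, ∀ y' ∈ Y,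
      (∀ i, ∃ d : ℤ, |d| < 2 ^ (l i + 1) ∧ y i - y' i = g k * d) → y = y' := by
    intro k y hy y' hy' h
    rw [hY, Finset.mem_image] at hy hy'
    obtain ⟨x, hx, rfl⟩ := hy
    obtain ⟨x', hx', rfl⟩ := hy'
    choose d hd hd2 using h
    choose z hz1 hz2 using fun i => bval_rep c D i _ (e i) (hD i) (d i) (hd i)
    set w : K → ℤ := fun k => z (c k) k with hw
    have hwb : ∀ i, bval c D w i = d i := by
      intro i
      rw [← hz2 i]
      unfold bval
      apply Finset.sum_congr rfl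
      intro k hk
      rw [hw]
      simp only
      rw [(Finset.mem_filter.mp hk).2]
    have h0 : ∑ k, (D k : ℝ) * b (c k) * (w k : ℝ) = 0 := by
      have h1 : ∀ i, (g k : ℝ) * (b i * (bval c D w i : ℝ)) =
          b i * (bval c D x i : ℝ) - b i * (bval c D x' i : ℝ) := by
        intro i
        have h2 : (g k : ℝ) * (bval c D w i : ℝ) =
            (bval c D x i : ℝ) - (bval c D x' i : ℝ) := by
          rw [hwb i]
          exact_mod_cast (hd2 i).symm
        linear_combination b i * h2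
      have h3 : (g k : ℝ) * ∑ k, (D k : ℝ) * b (c k) * (w k : ℝ) = 0 := by
        rw [sum_blocks, Finset.mul_sum, Finset.sum_congr rfl (fun i _ => h1 i),
          Finset.sum_sub_distrib, ← sum_blocks, ← sum_blocks, (hF x hx).2, (hF x' hx').2, sub_self]
      rcases mul_eq_zero.mp h3 with h4 | h4
      · exact absurd (by exact_mod_cast h4) (hg k)
      · exact h4
    have hw0 := adm w (fun k => hz1 (c k) k) h0
    funext i
    have h2 := hd2 i
    rw [← hwb i, hw0] at h2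
    have h3 : bval c D (0 : K → ℤ) i = 0 := by
      unfold bval
      simp
    rw [h3, mul_zero] at h2
    omega
  -- the count is a sum over the block value vectors
  have hcard : (F.card : ℝ) ≤ ∑ y ∈ Y, ∏ i, (cnt (pows (l i + 1)) (y i) : ℝ) := by
    rw [Finset.card_eq_sum_card_image (bval c D) F]
    push_cast
    apply Finset.sum_le_sum
    intro y _
    have h1 := card_fiber_le c D y (F.filter (fun x => bval c D x = y))
      (fun x hx => (hF x (Finset.mem_filter.mp hx).1).1)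
      (fun x hx i => congrFun (Finset.mem_filter.mp hx).2 i)
    have h2 : ∏ i, blockCount c D i (y i) = ∏ i, cnt (pows (l i + 1)) (y i) :=
      Finset.prod_congr rfl (fun i _ => blockCount_pows c D i _ (e i) (hD i) (y i))
    rw [h2] at h1
    exact_mod_cast h1
  refine hcard.trans ?_
  set A : κ → (C → ℤ) → ℝ := fun k y => ∏ i, tile (g k) (l i + 1) (s k i) (p k i) (y i) with hA
  have hAnn : ∀ k y, 0 ≤ A k y := fun k y =>
    Finset.prod_nonneg (fun i _ => tile_nonneg _ _ _ _ (hp k i) _)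
  have hlp : 0 ≤ ∏ i, lam i := Finset.prod_nonneg (fun i _ => hlam i)
  have hstep : ∀ y ∈ Y, ∏ i, (cnt (pows (l i + 1)) (y i) : ℝ) ≤
      (∏ i, lam i) * ∑ k, t k * A k y := by
    intro y _
    calc ∏ i, (cnt (pows (l i + 1)) (y i) : ℝ)
        ≤ ∏ i, (lam i * ∏ k, (tile (g k) (l i + 1) (s k i) (p k i) (y i)) ^ (t k)) :=
          Finset.prod_le_prod (fun i _ => Nat.cast_nonneg _) (fun i _ => hN i (y i))
      _ = (∏ i, lam i) * ∏ k, (A k y) ^ (t k) := by
          rw [Finset.prod_mul_distrib, Finset.prod_comm]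
          congr 1
          apply Finset.prod_congr rfl
          intro k _
          rw [hA]
          exact Real.finsetProd_rpow _ _ (fun i _ => tile_nonneg _ _ _ _ (hp k i) _) _
      _ ≤ (∏ i, lam i) * ∑ k, t k * A k y :=
          mul_le_mul_of_nonneg_left
            (Real.geom_mean_le_arith_mean_weighted univ t (fun k => A k y) (fun k _ => ht k) ht1
              (fun k _ => hAnn k y)) hlp
  refine (Finset.sum_le_sum hstep).trans ?_
  rw [← Finset.mul_sum, Finset.sum_comm]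
  have hk : ∀ k, ∑ y ∈ Y, t k * A k y ≤ t k := by
    intro k
    rw [← Finset.mul_sum]
    have h1 : ∑ y ∈ Y, A k y ≤ 1 :=
      sum_tile_le Y (g k) (fun i => l i + 1) (s k) (p k) (hp k) (hp1 k) (key k)
    calc t k * ∑ y ∈ Y, A k y ≤ t k * 1 := mul_le_mul_of_nonneg_left h1 (ht k)
      _ = t k := mul_one _
  calc (∏ i, lam i) * ∑ k, ∑ y ∈ Y, t k * A k y ≤ (∏ i, lam i) * ∑ k, t k :=
        mul_le_mul_of_nonneg_left (Finset.sum_le_sum (fun k _ => hk k)) hlp
    _ = ∏ i, lam i := by rw [ht1, mul_one]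

end Pool.Agent.Helper54.Chain
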