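import Pool.Agent.Helper54.Chain.Assemble
import Pool.Agent.Helper54.Chain.Tile
import Pool.Agent.Helper54.Chain.Data

/-!
# Assembly with tile certificates
-/

open Finset

namespace Pool.Agent.Helper54.Chain

open Pool.Agent.Helper23.Hyper

/-- The assembly from chain data, with tile certificates for all lengths. -/
theorem assembleTile {n : ℕ} (a : Fin n → ℝ) (T : ℝ)
    (hinj : ∀ j k, |a j| = |a k| → j = k)
    (adm : ∀ z : Fin n → ℤ, (∀ k, z k ∈ Icc (-1 : ℤ) 1) → ∑ k, a k * (z k : ℝ) = 0 → z = 0)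
    (c : Fin n → Fin n) (p : Fin n → ℕ) (hc : ∀ k j, 2 * |a j| ≠ |a (c k)|)
    (hp : ∀ k, |a k| = 2 ^ (p k) * |a (c k)|)
    (hdown : ∀ k m, m < p k → ∃ j, c j = c k ∧ p j = m)
    (β C : ℝ) (hβ : 0 ≤ β) (hC : 0 ≤ C)
    {κ : Type*} [Fintype κ] (g : κ → ℤ) (hg : ∀ k, g k ≠ 0) (t : κ → ℝ) (ht : ∀ k, 0 ≤ t k)
    (ht1 : ∑ k, t k = 1)
    (hcert : ∀ l : ℕ, ∃ (s : κ → Finset ℤ) (q : κ → ℤ → ℝ), (∀ k, ∀ w ∈ s k, 0 ≤ q k w) ∧
      (∀ k, ∑ w ∈ s k, q k w ≤ 1) ∧ ∀ y, (cnt (pows (l + 1)) y : ℝ) ≤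
        C * β ^ (l + 1) * ∏ k, (tile (g k) (l + 1) (s k) (q k) y) ^ (t k)) :
    (((Fintype.piFinset (fun _ : Fin n => Icc (-2 : ℤ) 2)).filter
      (fun x => ∑ k, a k * (x k : ℝ) = T)).card : ℝ) ≤ C ^ bottoms a * β ^ n := by
  classical
  have h0 : ∀ k, a k ≠ 0 := by
    intro k hk
    have := adm (fun j => if j = k then 1 else 0) (by intro j; by_cases h : j = k <;> simp [h])
      (by simp [hk])
    have h1 := congrFun this k
    simp at h1
  -- the type of bottoms
  set B : Type := {i : Fin n // ∀ j, 2 * |a j| ≠ |a i|} with hB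
  set c' : Fin n → B := fun k => ⟨c k, hc k⟩ with hc'
  -- positions of bottoms vanish
  have hbot : ∀ i : B, c i.1 = i.1 ∧ p i.1 = 0 := by
    intro i
    have hp0 : p i.1 = 0 := by
      by_contra hne
      obtain ⟨m, hm⟩ : ∃ m, p i.1 = m + 1 := ⟨p i.1 - 1, by omega⟩
      obtain ⟨j, hj1, hj2⟩ := hdown i.1 m (by omega)
      have h2 := hp j
      rw [hj1, hj2] at h2
      have h3 := hp i.1
      rw [hm, pow_succ] at h3
      exact i.2 j (by rw [h2, h3]; ring)
    refine ⟨?_, hp0⟩
    have h3 := hp i.1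
    rw [hp0, pow_zero, one_mul] at h3
    exact (hinj _ _ h3).symm
  have hblock : ∀ i : B, ∃ (l : ℕ) (e : Fin (l + 1) ≃ {k // c' k = i}), ∀ j, p (e j).1 = j := by
    intro i
    apply exists_equiv c' p i
    · exact ⟨i.1, Subtype.ext (hbot i).1⟩
    · intro k k' hk hk' hpp
      apply hinj
      rw [hp k, hp k', hpp]
      have h1 : c k = c k' := by
        have := hk.trans hk'.symm
        exact congrArg Subtype.val this
      rw [h1]
    · intro k hk m hm
      obtain ⟨j, hj1, hj2⟩ := hdown k m hm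
      exact ⟨j, by rw [← hk]; exact Subtype.ext hj1, hj2⟩
  choose l e he using hblock
  -- coefficients
  set D : Fin n → ℤ := fun k => if 0 < a k then 2 ^ (p k) else - 2 ^ (p k) with hD
  have haD : ∀ k, a k = (D k : ℝ) * |a (c' k).1| := by
    intro k
    have h1 := hp k
    rw [hD]
    simp only
    by_cases h : 0 < a k
    · rw [if_pos h]
      rw [abs_of_pos h] at h1
      push_cast
      exact h1
    · rw [if_neg h]
      rw [abs_of_nonpos (not_lt.mp h)] at h1
      push_cast
      have : (c' k).1 = c k := rfl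
      rw [this]
      linarith
  choose s q hq0 hq1 hqN using hcert
  have key := chains_tile c' D (fun i => |a i.1|) T ?_ l e ?_ g hg t ht ht1
    (fun k i => s (l i) k) (fun k i => q (l i) k) (fun k i => hq0 (l i) k)
    (fun k i => hq1 (l i) k) (fun i => C * β ^ (l i + 1)) (fun i => by positivity)
    (fun i y => hqN (l i) y)
  · have hset : (Fintype.piFinset (fun _ : Fin n => Icc (-2 : ℤ) 2)).filter
        (fun x => ∑ k, a k * (x k : ℝ) = T) =
        (Fintype.piFinset (fun _ : Fin n => Icc (-2 : ℤ) 2)).filter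
        (fun x => ∑ k, (D k : ℝ) * |a (c' k).1| * (x k : ℝ) = T) := by
      apply Finset.filter_congr
      intro x _
      have h1 : ∑ k, a k * (x k : ℝ) = ∑ k, (D k : ℝ) * |a (c' k).1| * (x k : ℝ) := by
        apply Finset.sum_congr rfl
        intro k _
        rw [← haD k]
      rw [h1]
    rw [hset]
    refine key.trans (le_of_eq ?_)
    rw [Finset.prod_mul_distrib, Finset.prod_const, Finset.prod_pow_eq_pow_sum]
    have hcardB : (univ : Finset B).card = bottoms a := by
      unfold bottoms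
      rw [Finset.card_univ, Fintype.card_subtype]
      congr 1
      ext i
      simp only [Finset.mem_filter, Finset.mem_univ, true_and]
      constructor
      · intro h j
        constructor
        · intro h2
          exact h j (by rw [h2, abs_mul]; norm_num)
        · intro h2
          exact h j (by rw [h2, abs_mul]; norm_num)
      · intro h j h2
        have h3 : |2 * a j| = |a i| := by rw [abs_mul]; norm_num; exact h2
        rcases abs_eq_abs.mp h3 with h4 | h4
        · exact (h j).1 h4.symm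
        · exact (h j).2 (by linarith)
    have hsum : ∑ i : B, (l i + 1) = n := by
      have h2 : ∀ i : B, Fintype.card {k // c' k = i} = l i + 1 := by
        intro i
        rw [← Fintype.card_congr (e i), Fintype.card_fin]
      have h3 : Fintype.card (Fin n) = ∑ i : B, Fintype.card {k // c' k = i} := by
        rw [← Fintype.card_sigma]
        exact Fintype.card_congr (Equiv.sigmaFiberEquiv c').symm
      rw [Fintype.card_fin] at h3
      exact (Finset.sum_congr rfl (fun i _ => (h2 i).symm)).trans h3.symm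
    rw [hcardB, hsum]
  · intro z hz h
    apply adm z hz
    rw [← h]
    apply Finset.sum_congr rfl
    intro k _
    rw [← haD k]
  · intro i j
    rw [hD]
    simp only
    rw [he i j]
    by_cases h : 0 < a (e i j).1
    · rw [if_pos h]; exact Or.inl rfl
    · rw [if_neg h]; exact Or.inr rfl

/-- The bound for all admissible real vectors, from tile certificates for all lengths. -/
theorem result_tile (β C : ℝ) (hβ : 0 ≤ β) (hC : 0 ≤ C) (n : ℕ) (a : Fin n → ℝ)
    (adm : ∀ x ∈ Fintype.piFinset (fun _ : Fin n => Icc (-1 : ℤ) 1),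
      ∑ i, a i * (x i : ℝ) = 0 → x = 0) (T : ℝ)
    {κ : Type*} [Fintype κ] (g : κ → ℤ) (hg : ∀ k, g k ≠ 0) (t : κ → ℝ) (ht : ∀ k, 0 ≤ t k)
    (ht1 : ∑ k, t k = 1)
    (hcert : ∀ l : ℕ, ∃ (s : κ → Finset ℤ) (q : κ → ℤ → ℝ), (∀ k, ∀ w ∈ s k, 0 ≤ q k w) ∧
      (∀ k, ∑ w ∈ s k, q k w ≤ 1) ∧ ∀ y, (cnt (pows (l + 1)) y : ℝ) ≤
        C * β ^ (l + 1) * ∏ k, (tile (g k) (l + 1) (s k) (q k) y) ^ (t k)) :
    (((Fintype.piFinset (fun _ : Fin n => Icc (-2 : ℤ) 2)).filter
      (fun x => ∑ i, a i * (x i : ℝ) = T)).card : ℝ) ≤ C ^ bottoms a * β ^ n := by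
  have adm' : ∀ z : Fin n → ℤ, (∀ k, z k ∈ Icc (-1 : ℤ) 1) → ∑ k, a k * (z k : ℝ) = 0 → z = 0 :=
    fun z hz h => adm z (Fintype.mem_piFinset.mpr hz) h
  obtain ⟨h0, hinj⟩ := abs_inj a adm'
  obtain ⟨c, p, hc, hp, hdown⟩ := chain_data a h0 hinj
  exact assembleTile a T hinj adm' c p hc hp hdown β C hβ hC g hg t ht ht1 hcert

end Pool.Agent.Helper54.Chain
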