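import Pool.Agent.Helper54.Chain.Core
import Pool.Agent.Helper23.Hyper.Bridge

/-!
# Doubling chains: representation, bounds modulo four
-/

open Finset

namespace Pool.Agent.Helper54.Chain

open Pool.Agent.Helper23.Hyper

/-- Signed binary expansions. -/
theorem rep : ∀ (l : ℕ) (d : ℤ), |d| < 2 ^ l →
    ∃ w : ℕ → ℤ, (∀ m, w m ∈ Icc (-1 : ℤ) 1) ∧ ∑ m ∈ range l, 2 ^ m * w m = d := by
  intro l
  induction l with
  | zero =>
    intro d hd
    refine ⟨fun _ => 0, fun _ => by simp, ?_⟩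
    rw [pow_zero] at hd
    have : d = 0 := Int.abs_lt_one_iff.mp hd
    simp [this]
  | succ l ih =>
    intro d hd
    have hd' := abs_lt.mp hd
    rw [pow_succ] at hd'
    obtain ⟨r, d', hr, hdd, hlt⟩ : ∃ r d' : ℤ, r ∈ Icc (-1 : ℤ) 1 ∧ d = r + 2 * d' ∧
        |d'| < 2 ^ l := by
      have hpos : (0 : ℤ) < 2 ^ l := by positivity
      rcases Int.emod_two_eq_zero_or_one d with h | h
      · exact ⟨0, d / 2, by simp, by omega, abs_lt.mpr ⟨by omega, by omega⟩⟩
      · rcases le_or_gt 0 d with h0 | h0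
        · exact ⟨1, d / 2, by simp, by omega, abs_lt.mpr ⟨by omega, by omega⟩⟩
        · exact ⟨-1, (d + 1) / 2, by simp, by omega, abs_lt.mpr ⟨by omega, by omega⟩⟩
    obtain ⟨w, hw, hs⟩ := ih d' hlt
    refine ⟨fun m => Nat.casesOn m r w, ?_, ?_⟩
    · intro m
      cases m with
      | zero => exact hr
      | succ m => exact hw m
    · rw [Finset.sum_range_succ']
      have h1 : ∀ m ∈ range l, (2 : ℤ) ^ (m + 1) * w m = 2 * (2 ^ m * w m) := by
        intro m _
        ring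
      calc _ = ∑ m ∈ range l, (2 : ℤ) ^ (m + 1) * w m + 2 ^ 0 * r := rfl
        _ = d := by
          rw [Finset.sum_congr rfl h1, ← Finset.mul_sum, hs, hdd]
          ring

theorem good_pows (l : ℕ) : Good (l + 1) (cnt (pows (l + 1))) := by
  induction l with
  | zero =>
    apply good_one
    intro t
    exact cnt_single 1 t one_ne_zero
  | succ l ih =>
    refine ih.step 0 ?_ ?_
    · intro c
      have := cnt_cons_even 0 (pows (l + 1)) c
      simpa [pows] using this
    · intro c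
      have := cnt_cons_odd 0 (pows (l + 1)) c
      simpa [pows] using this

/-- The bound for the class of `t` modulo four. -/
def modBound (l : ℕ) (s : Fin 4) : ℕ := if s = 0 then R l else if s = 2 then Q l else P l

theorem pows_le_mod (l : ℕ) (t : ℤ) (s : Fin 4) (hs : t % 4 = (s : ℕ)) :
    cnt (pows (l + 1)) t ≤ modBound (l + 1) s := by
  have hg := good_pows l
  have h3 : modBound (l + 1) 1 = P (l + 1) := by
    unfold modBound
    rw [if_neg (by decide), if_neg (by decide)]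
  have h4 : modBound (l + 1) 3 = P (l + 1) := by
    unfold modBound
    rw [if_neg (by decide), if_neg (by decide)]
  have h5 : modBound (l + 1) 2 = Q (l + 1) := by
    unfold modBound
    rw [if_neg (by decide), if_pos rfl]
  have h6 : modBound (l + 1) 0 = R (l + 1) := by
    unfold modBound
    rw [if_pos rfl]
  fin_cases s
  · have hs' : t % 4 = 0 := hs
    show cnt (pows (l + 1)) t ≤ modBound (l + 1) 0
    rw [h6]
    rcases l with _ | l
    · have h1 : cnt (pows 1) t ≤ 1 := cnt_single 1 t one_ne_zero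
      exact h1
    · obtain ⟨c, hc⟩ : ∃ c : ℤ, t = 2 * (2 * c) := ⟨t / 4, by omega⟩
      rw [hc, pows_even]
      have := (good_pows l).triple (2 * c) 1 (by omega) (by omega)
      omega
  · have hs' : t % 4 = 1 := hs
    show cnt (pows (l + 1)) t ≤ modBound (l + 1) 1
    rw [h3]
    exact hg.odd t (by omega)
  · have hs' : t % 4 = 2 := hs
    show cnt (pows (l + 1)) t ≤ modBound (l + 1) 2
    rw [h5]
    exact hg.all t
  · have hs' : t % 4 = 3 := hs
    show cnt (pows (l + 1)) t ≤ modBound (l + 1) 3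
    rw [h4]
    exact hg.odd t (by omega)

theorem sum_modBound (l : ℕ) : ∑ s, modBound l s = R l + Q l + 2 * P l := by
  rw [Fin.sum_univ_four]
  unfold modBound
  rw [if_pos rfl, if_neg (by decide), if_neg (by decide), if_neg (by decide), if_pos rfl,
    if_neg (by decide), if_neg (by decide)]
  ring

variable {K C : Type*} [Fintype K] [DecidableEq K] [Fintype C] [DecidableEq C]

/-- A block whose coefficients are `± 1, ± 2, ± 4, …` has the same counts as the powers of two. -/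
theorem blockCount_pows (c : K → C) (D : K → ℤ) (i : C) (l : ℕ) (e : Fin l ≃ {k // c k = i})
    (hD : ∀ j, D (e j).1 = 2 ^ (j : ℕ) ∨ D (e j).1 = - 2 ^ (j : ℕ)) (t : ℤ) :
    blockCount c D i t = cnt (pows l) t := by
  rw [← ofFn_pows, ← secCount_eq]
  unfold blockCount secCount
  have hex : ∀ j, ∃ s : ℤ, (s = 1 ∨ s = -1) ∧ D (e j).1 = s * 2 ^ (j : ℕ) := by
    intro j
    rcases hD j with h | h
    · exact ⟨1, Or.inl rfl, by rw [h, one_mul]⟩
    · exact ⟨-1, Or.inr rfl, by rw [h]; ring⟩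
  choose σ hσ hσD using hex
  have hss : ∀ j, σ j * σ j = 1 := by
    intro j
    rcases hσ j with h | h <;> rw [h] <;> norm_num
  have hmem : ∀ j (u : ℤ), u ∈ Icc (-2 : ℤ) 2 → σ j * u ∈ Icc (-2 : ℤ) 2 := by
    intro j u hu
    rw [Finset.mem_Icc] at hu ⊢
    rcases hσ j with h | h <;> rw [h] <;> constructor <;> linarith [hu.1, hu.2]
  have hsum : ∀ u : {k // c k = i} → ℤ, ∑ k, D k.1 * u k =
      ∑ j : Fin l, 2 ^ (j : ℕ) * (σ j * u (e j)) := by
    intro u
    rw [← e.sum_comp]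
    apply Finset.sum_congr rfl
    intro j _
    rw [hσD j]
    ring
  refine Finset.card_nbij' (i := fun u j => σ j * u (e j))
    (j := fun v k => σ (e.symm k) * v (e.symm k)) ?_ ?_ ?_ ?_
  · intro u hu
    simp only [Finset.coe_filter, Fintype.mem_piFinset, Set.mem_ofPred_eq] at hu ⊢
    exact ⟨fun j => hmem j _ (hu.1 (e j)), by rw [← hu.2, hsum]⟩
  · intro v hv
    simp only [Finset.coe_filter, Fintype.mem_piFinset, Set.mem_ofPred_eq] at hv ⊢
    refine ⟨fun k => hmem _ _ (hv.1 _), ?_⟩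
    rw [hsum, ← hv.2]
    apply Finset.sum_congr rfl
    intro j _
    rw [Equiv.symm_apply_apply, ← mul_assoc (σ j), hss, one_mul]
  · intro u _
    funext k
    simp only [Equiv.apply_symm_apply]
    rw [← mul_assoc, hss, one_mul]
  · intro v _
    funext j
    simp only [Equiv.symm_apply_apply]
    rw [← mul_assoc, hss, one_mul]

/-- Block values in terms of the positions. -/
theorem bval_equiv (c : K → C) (D : K → ℤ) (i : C) (l : ℕ) (e : Fin l ≃ {k // c k = i})
    (x : K → ℤ) : bval c D x i = ∑ j, D (e j).1 * x (e j).1 := by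
  rw [bval_eq, ← e.sum_comp]

theorem bval_abs (c : K → C) (D : K → ℤ) (i : C) (l : ℕ) (e : Fin l ≃ {k // c k = i})
    (hD : ∀ j, D (e j).1 = 2 ^ (j : ℕ) ∨ D (e j).1 = - 2 ^ (j : ℕ)) (x : K → ℤ)
    (hx : ∀ k, x k ∈ Icc (-2 : ℤ) 2) : |bval c D x i| ≤ 2 * (2 ^ l - 1) := by
  rw [bval_equiv c D i l e]
  refine (Finset.abs_sum_le_sum_abs _ _).trans ?_
  have h1 : ∀ j ∈ (univ : Finset (Fin l)), |D (e j).1 * x (e j).1| ≤ 2 ^ (j : ℕ) * 2 := by
    intro j _
    rw [abs_mul]
    have h2 : |D (e j).1| = 2 ^ (j : ℕ) := by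
      rcases hD j with h | h <;> rw [h]
      · exact abs_of_nonneg (by positivity)
      · rw [abs_neg]; exact abs_of_nonneg (by positivity)
    rw [h2]
    have h3 := Finset.mem_Icc.mp (hx (e j).1)
    exact mul_le_mul_of_nonneg_left (abs_le.mpr ⟨h3.1, h3.2⟩) (by positivity)
  refine (Finset.sum_le_sum h1).trans ?_
  rw [← Finset.sum_mul, Fin.sum_univ_eq_sum_range (fun j => (2 : ℤ) ^ j) l]
  have h4 : ∀ n : ℕ, ∑ j ∈ range n, (2 : ℤ) ^ j = 2 ^ n - 1 := by
    intro n
    induction n with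
    | zero => simp
    | succ n ih => rw [Finset.sum_range_succ, ih, pow_succ]; ring
  rw [h4]
  linarith

/-- Small integers are values of the block at points with digits in `{-1, 0, 1}`. -/
theorem bval_rep (c : K → C) (D : K → ℤ) (i : C) (l : ℕ) (e : Fin l ≃ {k // c k = i})
    (hD : ∀ j, D (e j).1 = 2 ^ (j : ℕ) ∨ D (e j).1 = - 2 ^ (j : ℕ)) (d : ℤ)
    (hd : |d| < 2 ^ l) : ∃ z : K → ℤ, (∀ k, z k ∈ Icc (-1 : ℤ) 1) ∧ bval c D z i = d := by
  obtain ⟨w, hw, hs⟩ := rep l d hd
  have hex : ∀ j, ∃ s : ℤ, (s = 1 ∨ s = -1) ∧ D (e j).1 = s * 2 ^ (j : ℕ) := by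
    intro j
    rcases hD j with h | h
    · exact ⟨1, Or.inl rfl, by rw [h, one_mul]⟩
    · exact ⟨-1, Or.inr rfl, by rw [h]; ring⟩
  choose σ hσ hσD using hex
  refine ⟨fun k => if h : c k = i then σ (e.symm ⟨k, h⟩) * w (e.symm ⟨k, h⟩) else 0, ?_, ?_⟩
  · intro k
    show (if h : c k = i then σ (e.symm ⟨k, h⟩) * w (e.symm ⟨k, h⟩) else 0) ∈ Icc (-1 : ℤ) 1
    by_cases h : c k = i
    · rw [dif_pos h]
      have h1 := Finset.mem_Icc.mp (hw (e.symm ⟨k, h⟩))
      rw [Finset.mem_Icc]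
      rcases hσ (e.symm ⟨k, h⟩) with h2 | h2 <;> rw [h2] <;> constructor <;> linarith [h1.1, h1.2]
    · rw [dif_neg h]
      simp
  · rw [bval_equiv c D i l e, ← hs, ← Fin.sum_univ_eq_sum_range (fun m => 2 ^ m * w m) l]
    apply Finset.sum_congr rfl
    intro j _
    have h1 : c (e j).1 = i := (e j).2
    rw [dif_pos h1]
    have h2 : e.symm ⟨(e j).1, h1⟩ = j := e.symm_apply_apply j
    rw [h2, hσD j]
    rcases hσ j with h3 | h3 <;> rw [h3] <;> ring

/-- The bound for a system of doubling chains. -/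
theorem chains (c : K → C) (D : K → ℤ) (b : C → ℝ) (T : ℝ)
    (adm : ∀ z : K → ℤ, (∀ k, z k ∈ Icc (-1 : ℤ) 1) →
      ∑ k, (D k : ℝ) * b (c k) * (z k : ℝ) = 0 → z = 0)
    (l : C → ℕ) (e : ∀ i, Fin (l i + 1) ≃ {k // c k = i})
    (hD : ∀ i j, D (e i j).1 = 2 ^ (j : ℕ) ∨ D (e i j).1 = - 2 ^ (j : ℕ)) :
    ((Fintype.piFinset (fun _ : K => Icc (-2 : ℤ) 2)).filter
      (fun x => ∑ k, (D k : ℝ) * b (c k) * (x k : ℝ) = T)).card ≤
      ∏ i, (R (l i + 1) + Q (l i + 1) + 2 * P (l i + 1)) := by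
  have h := core c D b T 4 (by norm_num) adm (fun _ => 4)
    (fun _ t => ⟨(t % 4).toNat, by omega⟩) ?_ (fun i => modBound (l i + 1)) ?_
  · refine h.trans (le_of_eq ?_)
    apply Finset.prod_congr rfl
    intro i _
    exact sum_modBound _
  · intro i x x' hx hx' hqq
    have h1 := bval_abs c D i _ (e i) (hD i) x hx
    have h2 := bval_abs c D i _ (e i) (hD i) x' hx'
    have h3 : (bval c D x i % 4).toNat = (bval c D x' i % 4).toNat := by
      simpa using congrArg Fin.val hqq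
    obtain ⟨d, hd⟩ : ∃ d : ℤ, bval c D x i - bval c D x' i = 4 * d :=
      ⟨(bval c D x i - bval c D x' i) / 4, by omega⟩
    have h4 : |d| < 2 ^ (l i + 1) := by
      rw [abs_le] at h1 h2
      rw [abs_lt]
      constructor <;> linarith [h1.1, h1.2, h2.1, h2.2]
    obtain ⟨z, hz, hzd⟩ := bval_rep c D i _ (e i) (hD i) d h4
    exact ⟨z, hz, by rw [hd, hzd]⟩
  · intro i t
    rw [blockCount_pows c D i _ (e i) (hD i)]
    apply pows_le_mod
    show t % 4 = (((t % 4).toNat : ℕ) : ℤ)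
    omega

end Pool.Agent.Helper54.Chain
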