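import Pool.Agent.Helper54.Chain.AssembleTile

/-!
# The two-scale certificate in window form
-/

open Finset

namespace Pool.Agent.Helper54.Chain

open Pool.Agent.Helper23.Hyper

theorem tile_one (l : ℕ) (s : Finset ℤ) (p : ℤ → ℝ) (y : ℤ) :
    tile 1 l s p y = ∑ w ∈ s.filter (fun w => w ≤ y ∧ y < w + 2 ^ l), p w := by
  classical
  unfold tile
  rw [Finset.sum_filter]
  apply Finset.sum_congr rfl
  intro w _
  by_cases h : w ≤ y ∧ y < w + 2 ^ l
  · rw [if_pos h, if_pos]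
    exact ⟨y - w, by linarith [h.1], by linarith [h.2], by ring⟩
  · rw [if_neg h, if_neg]
    rintro ⟨u, h1, h2, h3⟩
    exact h ⟨by linarith, by linarith⟩

theorem tile_two (l : ℕ) (s : Finset ℤ) (p : ℤ → ℝ) (y : ℤ) :
    tile 2 l s p y =
      ∑ w ∈ s.filter (fun w => w ≤ y ∧ y < w + 2 * 2 ^ l ∧ (2 : ℤ) ∣ (y - w)), p w := by
  classical
  unfold tile
  rw [Finset.sum_filter]
  apply Finset.sum_congr rfl
  intro w _
  by_cases h : w ≤ y ∧ y < w + 2 * 2 ^ l ∧ (2 : ℤ) ∣ (y - w)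
  · rw [if_pos h, if_pos]
    obtain ⟨u, hu⟩ := h.2.2
    exact ⟨u, by linarith [h.1], by linarith [h.2.1], by linarith⟩
  · rw [if_neg h, if_neg]
    rintro ⟨u, h1, h2, h3⟩
    exact h ⟨by linarith, by linarith, ⟨u, by linarith⟩⟩

/-- The bound for all admissible real vectors from two-scale window certificates. -/
theorem result_cert (β C : ℝ) (hβ : 0 ≤ β) (hC : 0 ≤ C)
    (hcert : ∀ l : ℕ, 1 ≤ l → ∃ (S : Finset ℤ) (p q : ℤ → ℝ), (∀ w, 0 ≤ p w) ∧ (∀ w, 0 ≤ q w) ∧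
      (∑ w ∈ S, p w) ≤ 1 ∧ (∑ w ∈ S, q w) ≤ 1 ∧
      ∀ t : ℤ, (cnt (pows l) t : ℝ) ^ 2 ≤ C ^ 2 * β ^ (2 * l) *
        (∑ w ∈ S.filter (fun w => w ≤ t ∧ t < w + 2 ^ l), p w) *
        (∑ w ∈ S.filter (fun w => w ≤ t ∧ t < w + 2 * 2 ^ l ∧ (2 : ℤ) ∣ (t - w)), q w))
    (n : ℕ) (a : Fin n → ℝ)
    (adm : ∀ x ∈ Fintype.piFinset (fun _ : Fin n => Icc (-1 : ℤ) 1),
      ∑ i, a i * (x i : ℝ) = 0 → x = 0) (T : ℝ) :
    (((Fintype.piFinset (fun _ : Fin n => Icc (-2 : ℤ) 2)).filter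
      (fun x => ∑ i, a i * (x i : ℝ) = T)).card : ℝ) ≤ C ^ bottoms a * β ^ n := by
  refine result_tile β C hβ hC n a adm T (κ := Fin 2) ![1, 2] ?_ ![1 / 2, 1 / 2] ?_ ?_ ?_
  · intro k
    fin_cases k <;> norm_num
  · intro k
    fin_cases k <;> norm_num
  · rw [Fin.sum_univ_two]
    norm_num
  · intro l
    obtain ⟨S, p, q, hp, hq, hp1, hq1, h⟩ := hcert (l + 1) (by omega)
    refine ⟨fun _ => S, ![p, q], ?_, ?_, ?_⟩
    · intro k w _
      fin_cases k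
      · exact hp w
      · exact hq w
    · intro k
      fin_cases k
      · exact hp1
      · exact hq1
    · intro y
      rw [Fin.prod_univ_two]
      simp only [Matrix.cons_val_zero, Matrix.cons_val_one]
      rw [tile_one, tile_two, ← Real.sqrt_eq_rpow, ← Real.sqrt_eq_rpow]
      set v1 := ∑ w ∈ S.filter (fun w => w ≤ y ∧ y < w + 2 ^ (l + 1)), p w with hv1
      set v2 := ∑ w ∈ S.filter (fun w => w ≤ y ∧ y < w + 2 * 2 ^ (l + 1) ∧ (2 : ℤ) ∣ (y - w)), q w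
        with hv2
      have h1 : 0 ≤ v1 := Finset.sum_nonneg (fun w _ => hp w)
      have h2 : 0 ≤ v2 := Finset.sum_nonneg (fun w _ => hq w)
      have h3 := h y
      have h4 : (C * β ^ (l + 1) * (√v1 * √v2)) ^ 2 = C ^ 2 * β ^ (2 * (l + 1)) * v1 * v2 := by
        rw [mul_pow, mul_pow, mul_pow, Real.sq_sqrt h1, Real.sq_sqrt h2, ← pow_mul,
          mul_comm (l + 1) 2]
        ring
      have h5 : 0 ≤ C * β ^ (l + 1) * (√v1 * √v2) := by positivity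
      rw [← h4] at h3
      exact abs_le_of_sq_le_sq' h3 h5 |>.2

end Pool.Agent.Helper54.Chain
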