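import Mathlib

/-!
# Counting integer points in blocks

`K` is a finite index set cut into blocks by `c : K → C`; the coefficient of `k` is `D k * b (c k)`
with an integer `D k` and a real `b (c k)`. A point `x : K → ℤ` has the block values
`y i = ∑_{c k = i} D k x k`, and `∑ k, a k x k = ∑ i, b i y i`.
-/

open Finset

namespace Pool.Agent.Helper54.Chain

variable {K C : Type*} [Fintype K] [DecidableEq K] [Fintype C] [DecidableEq C]

/-- The value of a point on the block `i`. -/
def bval (c : K → C) (D : K → ℤ) (x : K → ℤ) (i : C) : ℤ :=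
  ∑ k ∈ univ.filter (fun k => c k = i), D k * x k

theorem sum_blocks (c : K → C) (D : K → ℤ) (b : C → ℝ) (x : K → ℤ) :
    ∑ k, (D k : ℝ) * b (c k) * (x k : ℝ) = ∑ i, b i * (bval c D x i : ℝ) := by
  rw [← Finset.sum_fiberwise (s := univ) (g := c)]
  apply Finset.sum_congr rfl
  intro i _
  unfold bval
  push_cast
  rw [Finset.mul_sum]
  apply Finset.sum_congr rfl
  intro k hk
  rw [(Finset.mem_filter.mp hk).2]
  ring

/-- The number of points with digits in `Icc (-2) 2` on the block `i` with value `t`. -/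
noncomputable def blockCount (c : K → C) (D : K → ℤ) (i : C) (t : ℤ) : ℕ :=
  ((Fintype.piFinset (fun _ : {k // c k = i} => Icc (-2 : ℤ) 2)).filter
    (fun u => ∑ k, D k.1 * u k = t)).card

theorem bval_eq (c : K → C) (D : K → ℤ) (x : K → ℤ) (i : C) :
    bval c D x i = ∑ k : {k // c k = i}, D k.1 * x k.1 := by
  unfold bval
  exact (Finset.sum_subtype _ (by simp) _)

/-- The points with prescribed block values. -/
theorem card_fiber_le (c : K → C) (D : K → ℤ) (y : C → ℤ)
    (F : Finset (K → ℤ)) (hF : ∀ x ∈ F, ∀ k, x k ∈ Icc (-2 : ℤ) 2)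
    (hy : ∀ x ∈ F, ∀ i, bval c D x i = y i) :
    F.card ≤ ∏ i, blockCount c D i (y i) := by
  classical
  have h1 : (Fintype.piFinset (fun i : C =>
      (Fintype.piFinset (fun _ : {k // c k = i} => Icc (-2 : ℤ) 2)).filter
        (fun u => ∑ k, D k.1 * u k = y i))).card = ∏ i, blockCount c D i (y i) := by
    rw [Fintype.card_piFinset]
    rfl
  rw [← h1]
  refine Finset.card_le_card_of_injOn (fun x i k => x k.1) ?_ ?_
  · intro x hx
    have hx' : x ∈ F := hx
    simp only [Finset.mem_coe, Fintype.mem_piFinset, Finset.mem_filter]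
    intro i
    refine ⟨fun k => hF x hx' k.1, ?_⟩
    rw [← hy x hx' i, bval_eq]
  · intro x hx x' hx' h
    funext k
    have := congrFun (congrFun h (c k)) ⟨k, rfl⟩
    exact this

/-- The core counting bound: `q i` cuts the values of the block `i` into `m i` cells such that two
values in the same cell differ by `g` times a `{-1, 0, 1}`-combination. -/
theorem core (c : K → C) (D : K → ℤ) (b : C → ℝ) (T : ℝ) (g : ℤ) (hg : g ≠ 0)
    (adm : ∀ z : K → ℤ, (∀ k, z k ∈ Icc (-1 : ℤ) 1) →
      ∑ k, (D k : ℝ) * b (c k) * (z k : ℝ) = 0 → z = 0)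
    (m : C → ℕ) (q : ∀ i, ℤ → Fin (m i))
    (hq : ∀ i (x x' : K → ℤ), (∀ k, x k ∈ Icc (-2 : ℤ) 2) → (∀ k, x' k ∈ Icc (-2 : ℤ) 2) →
      q i (bval c D x i) = q i (bval c D x' i) →
      ∃ z : K → ℤ, (∀ k, z k ∈ Icc (-1 : ℤ) 1) ∧
        bval c D x i - bval c D x' i = g * bval c D z i)
    (M : ∀ i, Fin (m i) → ℕ)
    (hM : ∀ i t, blockCount c D i t ≤ M i (q i t)) :
    ((Fintype.piFinset (fun _ : K => Icc (-2 : ℤ) 2)).filter
      (fun x => ∑ k, (D k : ℝ) * b (c k) * (x k : ℝ) = T)).card ≤ ∏ i, ∑ s, M i s := by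
  classical
  set F := (Fintype.piFinset (fun _ : K => Icc (-2 : ℤ) 2)).filter
      (fun x => ∑ k, (D k : ℝ) * b (c k) * (x k : ℝ) = T) with hFdef
  have hF : ∀ x ∈ F, (∀ k, x k ∈ Icc (-2 : ℤ) 2) ∧
      ∑ k, (D k : ℝ) * b (c k) * (x k : ℝ) = T := by
    intro x hx
    rw [hFdef, Finset.mem_filter, Fintype.mem_piFinset] at hx
    exact hx
  -- points with the same cells have the same block values
  have key : ∀ x ∈ F, ∀ x' ∈ F, (∀ i, q i (bval c D x i) = q i (bval c D x' i)) →
      bval c D x = bval c D x' := by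
    intro x hx x' hx' h
    choose z hz1 hz2 using fun i => hq i x x' (hF x hx).1 (hF x' hx').1 (h i)
    set w : K → ℤ := fun k => z (c k) k with hw
    have hwb : ∀ i, bval c D w i = bval c D (z i) i := by
      intro i
      unfold bval
      apply Finset.sum_congr rfl
      intro k hk
      rw [hw]
      simp only
      rw [(Finset.mem_filter.mp hk).2]
    have h0 : ∑ k, (D k : ℝ) * b (c k) * (w k : ℝ) = 0 := by
      have h1 : ∀ i, (g : ℝ) * (b i * (bval c D w i : ℝ)) =
          b i * (bval c D x i : ℝ) - b i * (bval c D x' i : ℝ) := by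
        intro i
        have h2 : (g : ℝ) * (bval c D w i : ℝ) =
            (bval c D x i : ℝ) - (bval c D x' i : ℝ) := by
          rw [hwb i]
          exact_mod_cast (hz2 i).symm
        linear_combination b i * h2
      have h3 : (g : ℝ) * ∑ k, (D k : ℝ) * b (c k) * (w k : ℝ) = 0 := by
        rw [sum_blocks, Finset.mul_sum, Finset.sum_congr rfl (fun i _ => h1 i),
          Finset.sum_sub_distrib, ← sum_blocks, ← sum_blocks, (hF x hx).2, (hF x' hx').2, sub_self]
      rcases mul_eq_zero.mp h3 with h4 | h4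
      · exact absurd (by exact_mod_cast h4) hg
      · exact h4
    have hw0 := adm w (fun k => hz1 (c k) k) h0
    funext i
    have h2 := hz2 i
    rw [← hwb i, hw0] at h2
    have h3 : bval c D (0 : K → ℤ) i = 0 := by
      unfold bval
      simp
    rw [h3, mul_zero] at h2
    omega
  -- sum over the cell vectors
  rw [Finset.card_eq_sum_card_fiberwise (f := fun x i => q i (bval c D x i))
    (t := (univ : Finset (∀ i, Fin (m i)))) (by intro x _; simp)]
  have hprod : ∏ i, ∑ s, M i s = ∑ g : (∀ i, Fin (m i)), ∏ i, M i (g i) := by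
    rw [Finset.prod_univ_sum]
    rw [Fintype.piFinset_univ]
  rw [hprod]
  apply Finset.sum_le_sum
  intro g _
  rcases (F.filter (fun x => (fun i => q i (bval c D x i)) = g)).eq_empty_or_nonempty with he | ⟨x0, hx0⟩
  · rw [he]
    simp
  · rw [Finset.mem_filter] at hx0
    refine le_trans (card_fiber_le c D (bval c D x0) _ ?_ ?_) ?_
    · intro x hx
      exact (hF x (Finset.mem_filter.mp hx).1).1
    · intro x hx i
      rw [Finset.mem_filter] at hx
      have := key x hx.1 x0 hx0.1 (fun i => by
        rw [congrFun hx.2 i, congrFun hx0.2 i])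
      exact congrFun this i
    · apply Finset.prod_le_prod'
      intro i _
      have := hM i (bval c D x0 i)
      rw [congrFun hx0.2 i] at this
      exact this

end Pool.Agent.Helper54.Chain
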