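import Pool.Agent.Helper23.Hyper.Perron

/-!
# `R l + Q l + 2 P l ≤ (8/5) β^l`
-/

namespace Pool.Agent.Helper54.Chain

open Pool.Agent.Helper23.Hyper

theorem root_bounds {β : ℝ}
    (h : IsGreatest {z : ℝ | z ^ 8 - 8 * z ^ 6 + 10 * z ^ 4 + 1 = 0} β) :
    β ^ 4 - 2 * β ^ 3 - 2 * β ^ 2 + 2 * β - 1 = 0 ∧ 2.538 ≤ β ∧ β ≤ 2.54 := by
  have h1 := root_ge h
  have h2 := quartic_of_octic h1 h.1
  have h3 : β ^ 4 - 2 * β ^ 3 - 2 * β ^ 2 + 2 * β - 1 = 0 := by linarith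
  refine ⟨h3, ?_, ?_⟩
  · by_contra hlt
    push Not at hlt
    nlinarith [mul_nonneg (sub_nonneg.mpr h1) (sub_nonneg.mpr hlt.le), sq_nonneg β,
      mul_nonneg (mul_nonneg (sub_nonneg.mpr h1) (sub_nonneg.mpr hlt.le)) (by linarith : (0 : ℝ) ≤ β),
      mul_nonneg (mul_nonneg (sub_nonneg.mpr h1) (sub_nonneg.mpr hlt.le)) (sq_nonneg β)]
  · by_contra hlt
    push Not at hlt
    have h4 : 0 < β - 2.54 := by linarith
    nlinarith [mul_pos h4 h4, mul_pos (mul_pos h4 h4) h4, mul_pos (mul_pos (mul_pos h4 h4) h4) h4]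

theorem values_four : P 4 = 13 ∧ Q 4 = 20 ∧ R 4 = 18 ∧ S 4 = 12 := by decide

theorem cone {β : ℝ} (hβ0 : 2.538 ≤ β) (h4 : β ^ 4 - 2 * β ^ 3 - 2 * β ^ 2 + 2 * β - 1 = 0) :
    ∀ m : ℕ, (P (m + 4) : ℝ) ≤ 0.32 * β ^ (m + 4) ∧
      (Q (m + 4) : ℝ) ≤ 0.32 * β ^ (m + 4) * (β - 1) ∧
      (R (m + 4) : ℝ) ≤ 0.32 * β ^ (m + 4) * (β ^ 2 - 2 * β) ∧
      (S (m + 4) : ℝ) ≤ 0.32 * β ^ (m + 4) * (β ^ 3 - 2 * β ^ 2 - β) := by
  intro m
  induction m with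
  | zero =>
    obtain ⟨v1, v2, v3, v4⟩ := values_four
    rw [Nat.zero_add, v1, v2, v3, v4]
    have h2 : (6.4414 : ℝ) ≤ β ^ 2 := by nlinarith
    have hm : 0.538 ≤ β - 2 := by linarith
    have hR : (1.3654 : ℝ) ≤ β ^ 2 - 2 * β := by
      have : β ^ 2 - 2 * β = β * (β - 2) := by ring
      rw [this]
      nlinarith
    have hS : (0.927 : ℝ) ≤ β ^ 3 - 2 * β ^ 2 - β := by
      have : β ^ 3 - 2 * β ^ 2 - β = β * (β * (β - 2) - 1) := by ring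
      rw [this]
      have h5 : (1.3654 : ℝ) ≤ β * (β - 2) := by nlinarith
      nlinarith
    have hb4 : (41.491 : ℝ) ≤ β ^ 4 := by
      have : β ^ 4 = β ^ 2 * β ^ 2 := by ring
      rw [this]
      nlinarith
    have hc : (13.277 : ℝ) ≤ 0.32 * β ^ 4 := by linarith
    refine ⟨by push_cast; linarith, ?_, ?_, ?_⟩
    · push_cast; nlinarith
    · push_cast; nlinarith
    · push_cast; nlinarith
  | succ m ih =>
    obtain ⟨i1, i2, i3, i4⟩ := ih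
    have e0 : m + 1 + 4 = (m + 4) + 1 := by ring
    rw [e0, P_succ (m + 4), Q_succ (m + 4), R_succ (m + 4), S_succ (m + 4), pow_succ β (m + 4)]
    push_cast
    have hp : (0 : ℝ) ≤ 0.32 * β ^ (m + 4) := by positivity
    have hq : 0.32 * (β ^ (m + 4) * β) * (β ^ 3 - 2 * β ^ 2 - β) =
        0.32 * β ^ (m + 4) * (1 + (β ^ 2 - 2 * β)) := by
      have : β * (β ^ 3 - 2 * β ^ 2 - β) = 1 + (β ^ 2 - 2 * β) := by linarith
      rw [← this]
      ring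
    refine ⟨by linarith, by linarith, by linarith, by rw [hq]; linarith⟩

/-- The rate bound. -/
theorem rate {β : ℝ} (h : IsGreatest {z : ℝ | z ^ 8 - 8 * z ^ 6 + 10 * z ^ 4 + 1 = 0} β)
    (l : ℕ) : ((R (l + 1) + Q (l + 1) + 2 * P (l + 1) : ℕ) : ℝ) ≤ 8 / 5 * β ^ (l + 1) := by
  obtain ⟨h4, hlo, hhi⟩ := root_bounds h
  have h2 : (6.4414 : ℝ) ≤ β ^ 2 := by nlinarith
  rcases Nat.lt_or_ge l 3 with hl | hl
  · interval_cases l
    · have : R (0 + 1) + Q (0 + 1) + 2 * P (0 + 1) = 4 := by decide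
      rw [this]
      norm_num
      linarith
    · have : R (1 + 1) + Q (1 + 1) + 2 * P (1 + 1) = 10 := by decide
      rw [this]
      push_cast
      norm_num
      linarith
    · have : R (2 + 1) + Q (2 + 1) + 2 * P (2 + 1) = 25 := by decide
      rw [this]
      push_cast
      have h3 : β ^ (2 + 1) = β ^ 2 * β := by ring
      rw [h3]
      nlinarith
  · obtain ⟨m, rfl⟩ : ∃ m, l = m + 3 := ⟨l - 3, by omega⟩
    obtain ⟨i1, i2, i3, i4⟩ := cone hlo h4 m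
    have e0 : m + 3 + 1 = m + 4 := by ring
    rw [e0]
    push_cast
    have hp : (0 : ℝ) ≤ β ^ (m + 4) := by positivity
    have h5 : 0.32 * (β ^ 2 - β + 1) ≤ 8 / 5 := by nlinarith
    have h6 : 0.32 * β ^ (m + 4) * (β ^ 2 - 2 * β) + 0.32 * β ^ (m + 4) * (β - 1) +
        2 * (0.32 * β ^ (m + 4)) = β ^ (m + 4) * (0.32 * (β ^ 2 - β + 1)) := by ring
    have h7 : β ^ (m + 4) * (0.32 * (β ^ 2 - β + 1)) ≤ β ^ (m + 4) * (8 / 5) :=
      mul_le_mul_of_nonneg_left h5 hp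
    linarith

end Pool.Agent.Helper54.Chain
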