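import Pool.Agent.Helper54.Chain.Assemble
import Pool.Agent.Helper54.Chain.Data
import Pool.Agent.Helper54.Chain.Rate

/-!
# The bound `(8/5)^r β^n`
-/

open Finset

namespace Pool.Agent.Helper54.Chain

theorem result_85 (β : ℝ)
    (hβ : IsGreatest {z : ℝ | z ^ 8 - 8 * z ^ 6 + 10 * z ^ 4 + 1 = 0} β) (n : ℕ) (a : Fin n → ℝ)
    (adm : ∀ x ∈ Fintype.piFinset (fun _ : Fin n => Icc (-1 : ℤ) 1),
      ∑ i, a i * (x i : ℝ) = 0 → x = 0) (T : ℝ) :
    (((Fintype.piFinset (fun _ : Fin n => Icc (-2 : ℤ) 2)).filter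
      (fun x => ∑ i, a i * (x i : ℝ) = T)).card : ℝ) ≤ (8 / 5) ^ bottoms a * β ^ n := by
  have adm' : ∀ z : Fin n → ℤ, (∀ k, z k ∈ Icc (-1 : ℤ) 1) → ∑ k, a k * (z k : ℝ) = 0 → z = 0 :=
    fun z hz h => adm z (Fintype.mem_piFinset.mpr hz) h
  obtain ⟨h0, hinj⟩ := abs_inj a adm'
  obtain ⟨c, p, hc, hp, hdown⟩ := chain_data a h0 hinj
  have hb := (root_bounds hβ).2.1
  exact assemble a T hinj adm' c p hc hp hdown β (8 / 5) (by linarith) (by norm_num)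
    (fun l => rate hβ l)

end Pool.Agent.Helper54.Chain
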