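import Pool.Agent.Helper54.Chain.Assemble
import Pool.Agent.Helper54.Chain.Rate

/-!
# Vectors with two progressions which reach the order `β^n` at `T = 0`
-/

open Finset Filter Topology

namespace Pool.Agent.Helper54.Chain

open Pool.Agent.Helper23.Hyper

theorem bottoms_special (m : ℕ) : bottoms (fun i => (special (m + 1) i : ℝ)) ≤ 2 := by
  classical
  unfold bottoms
  have h : univ.filter (fun i : Fin (m + 1 + 1) => ∀ j, (special (m + 1) i : ℝ) ≠
      2 * (special (m + 1) j : ℝ) ∧ (special (m + 1) i : ℝ) ≠ -2 * (special (m + 1) j : ℝ)) ⊆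
      ({0, Fin.succ 0} : Finset (Fin (m + 1 + 1))) := by
    intro i hi
    rw [Finset.mem_filter] at hi
    rw [Finset.mem_insert, Finset.mem_singleton]
    induction i using Fin.cases with
    | zero => exact Or.inl rfl
    | succ i =>
      rcases Nat.eq_zero_or_pos i.val with h0 | h0
      · exact Or.inr (by rw [Fin.succ_inj]; exact Fin.ext h0)
      · exfalso
        have hlt : i.val - 1 < m + 1 := by have := i.2; omega
        apply (hi.2 (Fin.succ ⟨i.val - 1, hlt⟩)).1
        simp only [special, Fin.cons_succ]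
        push_cast
        obtain ⟨j, hj⟩ : ∃ j, i.val = j + 1 := ⟨i.val - 1, by omega⟩
        rw [hj, Nat.add_sub_cancel, pow_succ]
        ring
  exact (Finset.card_le_card h).trans (Finset.card_le_two)

theorem adm_cast {n : ℕ} (a : Fin n → ℤ) (h : Admissible a) :
    ∀ x ∈ Fintype.piFinset (fun _ : Fin n => Icc (-1 : ℤ) 1),
      ∑ i, (a i : ℝ) * (x i : ℝ) = 0 → x = 0 := by
  intro x hx h0
  apply h x hx
  have h1 : ((∑ i, a i * x i : ℤ) : ℝ) = 0 := by
    push_cast
    exact h0
  exact_mod_cast h1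

theorem count_cast {n : ℕ} (a : Fin n → ℤ) :
    ((Fintype.piFinset (fun _ : Fin n => Icc (-2 : ℤ) 2)).filter
      (fun x => ∑ i, (a i : ℝ) * (x i : ℝ) = 0)).card = secCount a 0 := by
  unfold secCount
  congr 1
  apply Finset.filter_congr
  intro x _
  constructor
  · intro h
    have h1 : ((∑ i, a i * x i : ℤ) : ℝ) = 0 := by
      push_cast
      exact h
    exact_mod_cast h1
  · intro h
    have h1 : ((∑ i, a i * x i : ℤ) : ℝ) = 0 := by rw [h]; simp
    push_cast at h1
    exact h1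

theorem lower {β : ℝ} (hβ : IsGreatest {z : ℝ | z ^ 8 - 8 * z ^ 6 + 10 * z ^ 4 + 1 = 0} β) :
    ∃ c : ℝ, 0 < c ∧ ∀ n : ℕ, 1 ≤ n → ∃ a : Fin n → ℝ,
      (∀ x ∈ Fintype.piFinset (fun _ : Fin n => Icc (-1 : ℤ) 1),
        ∑ i, a i * (x i : ℝ) = 0 → x = 0) ∧ bottoms a ≤ 2 ∧
      c * β ^ n ≤ (((Fintype.piFinset (fun _ : Fin n => Icc (-2 : ℤ) 2)).filter
        (fun x => ∑ i, a i * (x i : ℝ) = 0)).card : ℝ) := by
  have h1 := root_ge hβ
  have h2 := quartic_of_octic h1 hβ.1
  obtain ⟨κ, hκ, ht, c, hc, hP⟩ := perron h1 h2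
  have hβ0 : 0 < β := by linarith
  refine ⟨min (2 * c / β) (1 / β), lt_min (by positivity) (by positivity), ?_⟩
  intro n hn
  have hp : 0 < β ^ n := pow_pos hβ0 n
  obtain ⟨m, rfl⟩ : ∃ m, n = m + 1 := ⟨n - 1, by omega⟩
  rcases Nat.eq_zero_or_pos m with hm | hm
  · subst hm
    refine ⟨fun _ => 1, ?_, ?_, ?_⟩
    · intro x _ h
      simp only [one_mul] at h
      rw [Fin.sum_univ_succ] at h
      simp only [Finset.univ_eq_empty, Finset.sum_empty, add_zero] at h
      funext i
      refine Fin.cases ?_ (fun j => Fin.elim0 j) i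
      exact_mod_cast h
    · unfold bottoms
      exact (Finset.card_le_univ _).trans (by simp)
    · have h3 : 1 ≤ ((Fintype.piFinset (fun _ : Fin (0 + 1) => Icc (-2 : ℤ) 2)).filter
          (fun x => ∑ i, (1 : ℝ) * (x i : ℝ) = 0)).card := by
        rw [Nat.one_le_iff_ne_zero, Finset.card_ne_zero]
        exact ⟨0, by simp⟩
      have h4 : (1 : ℝ) ≤ ((Fintype.piFinset (fun _ : Fin (0 + 1) => Icc (-2 : ℤ) 2)).filter
          (fun x => ∑ i, (1 : ℝ) * (x i : ℝ) = 0)).card := by exact_mod_cast h3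
      refine le_trans ?_ h4
      calc min (2 * c / β) (1 / β) * β ^ (0 + 1) ≤ 1 / β * β ^ (0 + 1) :=
            mul_le_mul_of_nonneg_right (min_le_right _ _) hp.le
        _ = 1 := by rw [zero_add, pow_one]; field_simp
  · obtain ⟨m, rfl⟩ : ∃ m', m = m' + 1 := ⟨m - 1, by omega⟩
    refine ⟨fun i => (special (m + 1) i : ℝ), adm_cast _ (special_triangular m).admissible,
      bottoms_special m, ?_⟩
    rw [count_cast]
    have h3 := secCount_special m
    have h4 : (2 : ℝ) * P (m + 1) ≤ secCount (special (m + 1)) 0 := by exact_mod_cast h3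
    refine le_trans ?_ h4
    calc min (2 * c / β) (1 / β) * β ^ (m + 1 + 1) ≤ 2 * c / β * β ^ (m + 1 + 1) :=
          mul_le_mul_of_nonneg_right (min_le_left _ _) hp.le
      _ = 2 * (c * β ^ (m + 1)) := by rw [pow_succ β (m + 1)]; field_simp
      _ ≤ 2 * P (m + 1) := by linarith [hP m]

end Pool.Agent.Helper54.Chain
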